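import Pool.Agent.V5helper32.CM.Stm

set_option autoImplicit false

/-!
# Project CM: invariance of Euler characteristics under isomorphisms (EISO) and their comparison
over two algebras (ECMP)
-/

namespace Pool.Agent.V5helper33.CM

open Pool.Agent.V5helper32.CM

section

variable {Λ : Type} [Ring Λ] [Algebra ℂ Λ]

theorem map_rx {M M' : Type} [AddCommGroup M] [Module Λ M] [AddCommGroup M'] [Module Λ M']
    (e : M ≃ₗ[Λ] M') (x : Λ) : (rx x M).map (e : M →ₗ[Λ] M') = rx x M' := by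
  unfold rx
  rw [Submodule.map_span]
  congr 1
  ext y
  constructor
  · rintro ⟨_, ⟨m, rfl⟩, rfl⟩
    exact ⟨e m, (map_smul e x m).symm⟩
  · rintro ⟨m, rfl⟩
    refine ⟨x • e.symm m, ⟨e.symm m, rfl⟩, ?_⟩
    show e (x • e.symm m) = x • m
    rw [map_smul, e.apply_symm_apply]

theorem map_kx {M M' : Type} [AddCommGroup M] [Module Λ M] [AddCommGroup M'] [Module Λ M']
    (e : M ≃ₗ[Λ] M') (x : Λ) : (kx x M).map (e : M →ₗ[Λ] M') = kx x M' := by
  ext y
  rw [Submodule.mem_map]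
  constructor
  · rintro ⟨m, hm, rfl⟩ l
    show x • l • e m = 0
    rw [← map_smul, ← map_smul, hm l, map_zero]
  · intro hy
    refine ⟨e.symm y, fun l => ?_, e.apply_symm_apply y⟩
    rw [← map_smul, ← map_smul, hy l, map_zero]

end

/-- EISO -/
theorem t_EISO : S_EISO := by
  intro Λ _ _ φ hφ xs
  induction xs with
  | nil => exact hφ
  | cons x xs ih =>
    intro M M' _ _ _ _ _ _ _ _ e
    show EE φ xs (M ⧸ rx x M) - EE φ xs (kx x M) = EE φ xs (M' ⧸ rx x M') - EE φ xs (kx x M')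
    have h1 : EE φ xs (M ⧸ rx x M) = EE φ xs (M' ⧸ rx x M') :=
      ih _ _ (Submodule.Quotient.equiv (rx x M) (rx x M') e (map_rx e x))
    have h2 : EE φ xs (kx x M) = EE φ xs (kx x M') :=
      ih _ _ ((e.submoduleMap (kx x M)).trans (LinearEquiv.ofEq _ _ (map_kx e x)))
    rw [h1, h2]

section

variable {Λ : Type} [Ring Λ]

theorem mem_kx {x : Λ} (hx : ∀ l : Λ, x * l = l * x) {M : Type} [AddCommGroup M] [Module Λ M]
    {m : M} : m ∈ kx x M ↔ x • m = 0 := by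
  constructor
  · intro h
    have := h 1
    rwa [one_smul] at this
  · intro h l
    rw [smul_smul, hx, ← smul_smul, h, smul_zero]

theorem mem_rx {x : Λ} (hx : ∀ l : Λ, x * l = l * x) {M : Type} [AddCommGroup M] [Module Λ M]
    {m : M} : m ∈ rx x M ↔ ∃ m' : M, x • m' = m := by
  constructor
  · intro h
    refine Submodule.span_induction (p := fun m _ => ∃ m' : M, x • m' = m) ?_ ?_ ?_ ?_ h
    · rintro _ ⟨m', rfl⟩
      exact ⟨m', rfl⟩
    · exact ⟨0, smul_zero _⟩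
    · rintro _ _ _ _ ⟨a, rfl⟩ ⟨b, rfl⟩
      exact ⟨a + b, smul_add _ _ _⟩
    · rintro l _ _ ⟨a, rfl⟩
      exact ⟨l • a, by rw [smul_smul, smul_smul, hx]⟩
  · rintro ⟨m', rfl⟩
    exact Submodule.subset_span ⟨m', rfl⟩

end

/-- the map between the quotients -/
theorem exists_quo {Λ Λ' : Type} [Ring Λ] [Algebra ℂ Λ] [Ring Λ'] [Algebra ℂ Λ'] {K : Type}
    {l : K → Λ} {l' : K → Λ'} {M M' : Type} [AddCommGroup M] [Module ℂ M] [Module Λ M]
    [IsScalarTower ℂ Λ M] [AddCommGroup M'] [Module ℂ M'] [Module Λ' M'] [IsScalarTower ℂ Λ' M']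
    (ψ : M ≃ₗ[ℂ] M') (h : ∀ k m, ψ (l k • m) = l' k • ψ m) (N : Submodule Λ M)
    (N' : Submodule Λ' M') (hN : ∀ m, m ∈ N ↔ ψ m ∈ N') :
    ∃ ψ' : (M ⧸ N) ≃ₗ[ℂ] (M' ⧸ N'), ∀ k m, ψ' (l k • m) = l' k • ψ' m := by
  have h1 : (N.restrictScalars ℂ).map (ψ : M →ₗ[ℂ] M') = N'.restrictScalars ℂ := by
    ext y
    rw [Submodule.mem_map]
    constructor
    · rintro ⟨m, hm, rfl⟩
      exact (hN m).1 hm
    · intro hy
      refine ⟨ψ.symm y, (hN _).2 ?_, ψ.apply_symm_apply y⟩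
      rw [ψ.apply_symm_apply]
      exact hy
  refine ⟨(Submodule.Quotient.restrictScalarsEquiv ℂ N).symm.trans
    ((Submodule.Quotient.equiv _ _ ψ h1).trans
      (Submodule.Quotient.restrictScalarsEquiv ℂ N')), ?_⟩
  intro k m
  obtain ⟨m, rfl⟩ := Submodule.Quotient.mk_surjective _ m
  show Submodule.Quotient.mk (ψ (l k • m)) = l' k • Submodule.Quotient.mk (ψ m)
  rw [h]
  rfl

/-- the map between the submodules -/
theorem exists_sub {Λ Λ' : Type} [Ring Λ] [Algebra ℂ Λ] [Ring Λ'] [Algebra ℂ Λ'] {K : Type}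
    {l : K → Λ} {l' : K → Λ'} {M M' : Type} [AddCommGroup M] [Module ℂ M] [Module Λ M]
    [IsScalarTower ℂ Λ M] [AddCommGroup M'] [Module ℂ M'] [Module Λ' M'] [IsScalarTower ℂ Λ' M']
    (ψ : M ≃ₗ[ℂ] M') (h : ∀ k m, ψ (l k • m) = l' k • ψ m) (N : Submodule Λ M)
    (N' : Submodule Λ' M') (hN : ∀ m, m ∈ N ↔ ψ m ∈ N') :
    ∃ ψ' : N ≃ₗ[ℂ] N', ∀ k m, ψ' (l k • m) = l' k • ψ' m := by
  refine ⟨{ toFun := fun m => ⟨ψ m, (hN m).1 m.2⟩
            map_add' := fun a b => Subtype.ext (by simp)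
            map_smul' := fun c a => Subtype.ext (by simp)
            invFun := fun m => ⟨ψ.symm m, (hN _).2 (by rw [ψ.apply_symm_apply]; exact m.2)⟩
            left_inv := fun m => Subtype.ext (by simp)
            right_inv := fun m => Subtype.ext (by simp) }, ?_⟩
  intro k m
  exact Subtype.ext (h k m)

/-- ECMP -/
theorem t_ECMP : S_ECMP := by
  intro Λ Λ' _ _ _ _ K l l' η φ φ' hφ ks
  induction ks with
  | nil =>
    intro _ _ M M' _ _ _ _ _ _ _ _ ψ h
    exact hφ M M' ψ h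
  | cons k ks ih =>
    intro hc hc' M M' _ _ _ _ _ _ _ _ ψ h
    have hx : ∀ y : Λ, l k * y = y * l k := hc _ (by simp)
    have hx' : ∀ y : Λ', l' k * y = y * l' k := hc' _ (by simp)
    have hcc : CenL (ks.map l) := fun x hx => hc x (List.mem_cons_of_mem _ hx)
    have hcc' : CenL (ks.map l') := fun x hx => hc' x (List.mem_cons_of_mem _ hx)
    obtain ⟨ψ1, h1⟩ := exists_quo ψ h (rx (l k) M) (rx (l' k) M') (by
      intro m
      rw [mem_rx hx, mem_rx hx']
      constructor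
      · rintro ⟨m', rfl⟩
        exact ⟨ψ m', (h k m').symm⟩
      · rintro ⟨m', hm'⟩
        refine ⟨ψ.symm m', ψ.injective ?_⟩
        rw [h, ψ.apply_symm_apply, hm'])
    obtain ⟨ψ2, h2⟩ := exists_sub ψ h (kx (l k) M) (kx (l' k) M') (by
      intro m
      rw [mem_kx hx, mem_kx hx', ← h]
      constructor
      · intro h3
        rw [h3, map_zero]
      · intro h3
        exact (LinearEquiv.map_eq_zero_iff ψ).1 h3)
    show EE φ (ks.map l) (M ⧸ rx (l k) M) - EE φ (ks.map l) (kx (l k) M) =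
      η * (EE φ' (ks.map l') (M' ⧸ rx (l' k) M') - EE φ' (ks.map l') (kx (l' k) M'))
    rw [ih hcc hcc' _ _ ψ1 h1, ih hcc hcc' _ _ ψ2 h2, mul_sub]

end Pool.Agent.V5helper33.CM
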