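import Pool.Agent.V5helper33.CM.EISO

set_option autoImplicit false

/-!
# Project CM: the Euler characteristic of a torsion module vanishes (ETOR)
-/

namespace Pool.Agent.V5helper33.CM

open Pool.Agent.V5helper32.CM MvPolynomial

section

variable {Λ : Type} [Ring Λ] [Algebra ℂ Λ]

theorem phi_zero {φ : Fn Λ} (hI : IsoFn φ) (hA : AddFn φ) (M : Type) [AddCommGroup M] [Module ℂ M]
    [Module Λ M] [IsScalarTower ℂ Λ M] [Subsingleton M] : φ M = 0 := by
  have : FiniteDimensional ℂ M := inferInstance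
  have h := hA M (⊥ : Submodule Λ M)
  have h1 : φ (⊥ : Submodule Λ M) = φ M := by
    refine hI _ _ (LinearEquiv.ofBijective (Submodule.subtype _) ⟨?_, ?_⟩)
    · exact Submodule.injective_subtype _
    · intro m
      exact ⟨0, Subsingleton.elim _ _⟩
  have h2 : φ (M ⧸ (⊥ : Submodule Λ M)) = φ M := hI _ _ (Submodule.quotEquivOfEqBot _ rfl)
  rw [h1, h2] at h
  linear_combination -h

theorem EE_zero {φ : Fn Λ} (hI : IsoFn φ) (hA : AddFn φ) (xs : List Λ) (M : Type)
    [AddCommGroup M] [Module ℂ M] [Module Λ M] [IsScalarTower ℂ Λ M] [Subsingleton M] :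
    EE φ xs M = 0 := by
  induction xs generalizing M with
  | nil => exact phi_zero hI hA M
  | cons x xs ih =>
    show EE φ xs (M ⧸ rx x M) - EE φ xs (kx x M) = 0
    rw [ih (M ⧸ rx x M), ih (kx x M), sub_zero]

/-- if `x` kills `M` -/
theorem EE_kill (hE : S_EISO) {φ : Fn Λ} (hI : IsoFn φ) (x : Λ) (xs : List Λ) (M : Type)
    [AddCommGroup M] [Module ℂ M] [Module Λ M] [IsScalarTower ℂ Λ M]
    (h : ∀ m : M, x • m = 0) : EE φ (x :: xs) M = 0 := by
  have h1 : rx x M = ⊥ := by
    unfold rx
    rw [Submodule.span_eq_bot]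
    rintro _ ⟨m, rfl⟩
    exact h m
  have h2 : kx x M = ⊤ := by
    rw [eq_top_iff]
    intro m _ l
    exact h _
  show EE φ xs (M ⧸ rx x M) - EE φ xs (kx x M) = 0
  have h3 : EE φ xs (M ⧸ rx x M) = EE φ xs M :=
    hE Λ φ hI xs _ _ (Submodule.quotEquivOfEqBot _ h1)
  have h4 : EE φ xs (kx x M) = EE φ xs M :=
    hE Λ φ hI xs _ _ ((LinearEquiv.ofEq _ _ h2).trans Submodule.topEquiv)
  rw [h3, h4, sub_self]

/-- if a power of `x` kills `M` -/
theorem EE_pow (hFG : S_FG) (hE : S_EISO) (hAdd : S_EADD) {φ : Fn Λ} (hI : IsoFn φ)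
    (hA : AddFn φ) (x : Λ) (xs : List Λ) (hc : CenL (x :: xs)) (k : ℕ) (M : Type)
    [AddCommGroup M] [Module ℂ M] [Module Λ M] [IsScalarTower ℂ Λ M] (hM : FG (x :: xs) M)
    (h : ∀ m : M, x ^ k • m = 0) : EE φ (x :: xs) M = 0 := by
  have hG := (hFG Λ).1
  have hx : ∀ y : Λ, x * y = y * x := hc x (by simp)
  induction k generalizing M with
  | zero =>
    have : Subsingleton M := ⟨fun a b => by
      have h1 := h a
      have h2 := h b
      rw [pow_zero, one_smul] at h1 h2
      rw [h1, h2]⟩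
    exact EE_zero hI hA _ M
  | succ k ih =>
    rw [hAdd Λ φ hI hA (FGp Λ) hG (x :: xs) hc M hM (rx x M)]
    have h1 : EE φ (x :: xs) (rx x M) = 0 := by
      refine ih (rx x M) (hG.sub _ hc M _ hM) ?_
      rintro ⟨m, hm⟩
      apply Subtype.ext
      show x ^ k • m = 0
      obtain ⟨m', rfl⟩ := (mem_rx hx).1 hm
      rw [smul_smul, ← pow_succ]
      exact h m'
    have h2 : EE φ (x :: xs) (M ⧸ rx x M) = 0 := by
      refine EE_kill hE hI x xs _ fun m => ?_
      obtain ⟨m, rfl⟩ := Submodule.Quotient.mk_surjective _ m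
      rw [← Submodule.Quotient.mk_smul, Submodule.Quotient.mk_eq_zero]
      exact (mem_rx hx).2 ⟨m, rfl⟩
    rw [h1, h2, add_zero]

/-- the elements killed by `x ^ k` -/
def kp (x : Λ) (hx : ∀ y : Λ, x * y = y * x) (k : ℕ) (M : Type) [AddCommGroup M] [Module Λ M] :
    Submodule Λ M where
  carrier := {m | x ^ k • m = 0}
  add_mem' := by
    intro a b ha hb
    show x ^ k • (a + b) = 0
    rw [smul_add, show x ^ k • a = 0 from ha, show x ^ k • b = 0 from hb, add_zero]
  zero_mem' := smul_zero _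
  smul_mem' := by
    intro c m hm
    show x ^ k • c • m = 0
    have h : x ^ k * c = c * x ^ k := ((show Commute x c from hx c).pow_left k)
    rw [smul_smul, h, ← smul_smul, show x ^ k • m = 0 from hm, smul_zero]

end

theorem fse_rename {r : ℕ} (g : MvPolynomial (Fin r) ℂ) :
    finSuccEquiv ℂ r (rename Fin.succ g) = Polynomial.C g := by
  induction g using MvPolynomial.induction_on with
  | C c =>
    rw [rename_C]
    simp [finSuccEquiv_apply]
  | add p q hp hq => rw [map_add, map_add, hp, hq, Polynomial.C_add]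
  | mul_X p i hp => rw [map_mul, map_mul, hp, rename_X, finSuccEquiv_X_succ, Polynomial.C_mul]

theorem X_nu {r : ℕ} : ¬ IsUnit (X 0 : MvPolynomial (Fin (r + 1)) ℂ) := by
  intro h
  have h1 := h.map (MvPolynomial.eval (0 : Fin (r + 1) → ℂ))
  rw [eval_X] at h1
  exact not_isUnit_zero h1

/-- the constant term with respect to the first variable -/
theorem exists_cst {r : ℕ} {q : MvPolynomial (Fin (r + 1)) ℂ} (hq : ¬ X 0 ∣ q) :
    ∃ q₀ : MvPolynomial (Fin r) ℂ, q₀ ≠ 0 ∧ ∃ u, q = rename Fin.succ q₀ + X 0 * u := by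
  refine ⟨(finSuccEquiv ℂ r q).coeff 0, ?_, ?_⟩
  · intro h
    apply hq
    rw [← Polynomial.X_dvd_iff] at h
    obtain ⟨u, hu⟩ := h
    refine ⟨(finSuccEquiv ℂ r).symm u, (finSuccEquiv ℂ r).injective ?_⟩
    rw [map_mul, AlgEquiv.apply_symm_apply, finSuccEquiv_X_zero, hu]
  · have h1 : Polynomial.X ∣ finSuccEquiv ℂ r q -
        Polynomial.C ((finSuccEquiv ℂ r q).coeff 0) := by
      rw [Polynomial.X_dvd_iff]
      simp
    obtain ⟨u, hu⟩ := h1
    refine ⟨(finSuccEquiv ℂ r).symm u, (finSuccEquiv ℂ r).injective ?_⟩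
    have h2 : finSuccEquiv ℂ r (rename Fin.succ ((finSuccEquiv ℂ r q).coeff 0)) =
        Polynomial.C ((finSuccEquiv ℂ r q).coeff 0) := fse_rename _
    rw [map_add, map_mul, AlgEquiv.apply_symm_apply, finSuccEquiv_X_zero, h2, ← hu]
    ring

/-- ETOR -/
theorem t_ETOR (hFG : S_FG) (hE : S_EISO) (hAdd : S_EADD) : S_ETOR := by
  intro Λ _ _ φ hI hA r
  have hG := (hFG Λ).1
  induction r with
  | zero =>
    intro a _ M _ _ _ _ _ q hq h
    have : Subsingleton M := by
      refine ⟨fun m m' => ?_⟩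
      have h1 : q = C (q.coeff 0) := by
        have := MvPolynomial.eq_C_of_isEmpty q
        exact this
      have h2 : q.coeff 0 ≠ 0 := by
        intro h3
        rw [h3, C_0] at h1
        exact hq h1
      have key : ∀ m : M, m = 0 := by
        intro m
        have h3 := h m
        rw [h1, show (C (q.coeff 0) : MvPolynomial (Fin 0) ℂ) =
          algebraMap ℂ (MvPolynomial (Fin 0) ℂ) (q.coeff 0) from rfl, AlgHom.commutes,
          algebraMap_smul] at h3
        exact (smul_eq_zero.1 h3).resolve_left h2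
      rw [key m, key m']
    exact EE_zero hI hA _ M
  | succ r ih =>
    intro a ha M _ _ _ _ hM q hq h
    set x := a (X 0) with hx0
    set a' : MvPolynomial (Fin r) ℂ →ₐ[ℂ] Λ := a.comp (rename Fin.succ) with ha'
    have ha'x : ∀ i, a' (X i) = a (X i.succ) := by
      intro i
      rw [ha', AlgHom.comp_apply, rename_X]
    have hlist : (List.ofFn fun i : Fin (r + 1) => a (X i)) =
        x :: List.ofFn fun i : Fin r => a' (X i) := by
      rw [List.ofFn_succ]
      simp only [ha'x]
      rfl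
    rw [hlist] at hM ⊢
    set xs := List.ofFn fun i : Fin r => a' (X i) with hxs
    have hx : ∀ y : Λ, x * y = y * x := ha _
    have hcs : CenL xs := by
      intro y hy
      rw [hxs, List.mem_ofFn] at hy
      obtain ⟨i, rfl⟩ := hy
      rw [ha'x]
      exact ha _
    have hc : CenL (x :: xs) := by
      intro y hy
      rcases List.mem_cons.1 hy with rfl | hy
      · exact hx
      · exact hcs y hy
    -- the torsion with respect to `x`
    have hN : IsNoetherian Λ M := ((hFG Λ).2 _ hc M hM).1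
    have hmono : Monotone fun k => kp x hx k M := by
      refine monotone_nat_of_le_succ fun k => ?_
      intro m hm
      show x ^ (k + 1) • m = 0
      rw [pow_succ', ← smul_smul, show x ^ k • m = 0 from hm, smul_zero]
    obtain ⟨k, hk⟩ := monotone_stabilizes_iff_noetherian.2 hN ⟨_, hmono⟩
    have hk1 : ∀ m : M, x ^ (k + 1) • m = 0 → x ^ k • m = 0 := by
      intro m hm
      have h1 : kp x hx k M = kp x hx (k + 1) M := hk (k + 1) (Nat.le_succ k)
      have h2 : m ∈ kp x hx (k + 1) M := hm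
      rw [← h1] at h2
      exact h2
    rw [hAdd Λ φ hI hA (FGp Λ) hG (x :: xs) hc M hM (kp x hx k M)]
    have e1 : EE φ (x :: xs) (kp x hx k M) = 0 := by
      refine EE_pow hFG hE hAdd hI hA x xs hc k _ (hG.sub _ hc M _ hM) ?_
      rintro ⟨m, hm⟩
      exact Subtype.ext hm
    rw [e1, zero_add]
    -- now `x` is injective
    set M'' := M ⧸ kp x hx k M with hM''
    have hFM : FG (x :: xs) M'' := hG.quo _ hc M _ hM
    have hinj : ∀ m : M'', x • m = 0 → m = 0 := by
      intro m hm
      obtain ⟨m, rfl⟩ := Submodule.Quotient.mk_surjective _ m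
      rw [← Submodule.Quotient.mk_smul, Submodule.Quotient.mk_eq_zero] at hm
      rw [Submodule.Quotient.mk_eq_zero]
      refine hk1 m ?_
      rw [pow_succ, ← smul_smul]
      exact hm
    have hinjp : ∀ (j : ℕ) (m : M''), x ^ j • m = 0 → m = 0 := by
      intro j
      induction j with
      | zero =>
        intro m hm
        rwa [pow_zero, one_smul] at hm
      | succ j ihj =>
        intro m hm
        rw [pow_succ', ← smul_smul] at hm
        exact ihj m (hinj _ hm)
    obtain ⟨j, q', hq', hqq⟩ := WfDvdMonoid.max_power_factor' hq X_nu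
    have hkill : ∀ m : M'', a q' • m = 0 := by
      intro m
      apply hinjp j
      obtain ⟨m, rfl⟩ := Submodule.Quotient.mk_surjective _ m
      have h5 : x ^ j * a q' = a q := by rw [hqq, map_mul, map_pow]
      rw [smul_smul, h5, ← Submodule.Quotient.mk_smul, h, Submodule.Quotient.mk_zero]
    obtain ⟨q₀, hq₀, u, hu⟩ := exists_cst hq'
    show EE φ xs (M'' ⧸ rx x M'') - EE φ xs (kx x M'') = 0
    have : Subsingleton (kx x M'') := by
      refine ⟨fun m m' => Subtype.ext ?_⟩
      rw [hinj m ((mem_kx hx).1 m.2), hinj m' ((mem_kx hx).1 m'.2)]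
    rw [EE_zero hI hA xs (kx x M''), sub_zero]
    have hxk : ∀ m : M'' ⧸ rx x M'', x • m = 0 := by
      intro m
      obtain ⟨m, rfl⟩ := Submodule.Quotient.mk_surjective _ m
      rw [← Submodule.Quotient.mk_smul, Submodule.Quotient.mk_eq_zero]
      exact (mem_rx hx).2 ⟨m, rfl⟩
    refine ih a' (fun q l => ha _ l) (M'' ⧸ rx x M'') ?_ q₀ hq₀ ?_
    · exact hG.cons x xs hc _ hxk (hG.quo _ hc M'' _ hFM)
    · intro m
      have h1 : a' q₀ = a q' - a u * x := by
        rw [hu, map_add, map_mul, ha, ← hx0, ha', AlgHom.comp_apply]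
        rw [add_sub_assoc, sub_self, add_zero]
      rw [h1, sub_smul, ← smul_smul, hxk, smul_zero, sub_zero]
      obtain ⟨m, rfl⟩ := Submodule.Quotient.mk_surjective _ m
      rw [← Submodule.Quotient.mk_smul, hkill, Submodule.Quotient.mk_zero]

end Pool.Agent.V5helper33.CM
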